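import Pool.Agent.X194.NP.Fin

/-!
# The normal path constants `w_n` are bounded

`w n` is the supremum, over normal `n × n` matrices `A`, `B` at operator norm distance `1`, of
the least length of a path of normal matrices from `A` to `B`.  We show that there is one
constant `C` with `w n ≤ C` for all `n`.
-/

namespace Pool.Agent.Results.MP_6f0508_an.UniformBound

open scoped Matrix.Norms.L2Operator Matrix ENNReal NNReal
open Set

/-- `N` is a normal matrix -/
def IsNormalMatrix {n : ℕ} (N : Matrix (Fin n) (Fin n) ℂ) : Prop := N * Nᴴ = Nᴴ * N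

/-- `γ` is a normal path from `A` to `B` -/
def IsNormalPath {n : ℕ} (A B : Matrix (Fin n) (Fin n) ℂ)
    (γ : ℝ → Matrix (Fin n) (Fin n) ℂ) : Prop :=
  ContinuousOn γ (Icc 0 1) ∧ γ 0 = A ∧ γ 1 = B ∧ ∀ t ∈ Icc (0 : ℝ) 1, IsNormalMatrix (γ t)

/-- the least length of a normal path from `A` to `B` (length for the operator norm) -/
noncomputable def L {n : ℕ} (A B : Matrix (Fin n) (Fin n) ℂ) : ℝ≥0∞ :=
  ⨅ (γ : ℝ → Matrix (Fin n) (Fin n) ℂ) (_ : IsNormalPath A B γ), eVariationOn γ (Icc 0 1)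

/-- the constant `w_n` -/
noncomputable def w (n : ℕ) : ℝ≥0∞ :=
  ⨆ (A : Matrix (Fin n) (Fin n) ℂ) (B : Matrix (Fin n) (Fin n) ℂ) (_ : IsNormalMatrix A)
    (_ : IsNormalMatrix B) (_ : ‖A - B‖ = 1), L A B

lemma normal_iff {n : ℕ} (N : Matrix (Fin n) (Fin n) ℂ) : IsNormalMatrix N ↔ IsStarNormal N := by
  constructor
  · intro h
    exact ⟨h.symm⟩
  · intro h
    exact (h.star_comm_self.eq).symm

lemma evar_le {n : ℕ} {c : ℝ} (γ : ℝ → Matrix (Fin n) (Fin n) ℂ)
    (h : ∀ s t, ‖γ s - γ t‖ ≤ c * |s - t|) : eVariationOn γ (Icc 0 1) ≤ ENNReal.ofReal c := by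
  have hl : LipschitzWith (Real.toNNReal c) γ := by
    apply LipschitzWith.of_dist_le_mul
    intro s t
    rw [dist_eq_norm, Real.dist_eq]
    exact (h s t).trans (mul_le_mul_of_nonneg_right (Real.le_coe_toNNReal c) (abs_nonneg _))
  have h1 := (hl.lipschitzOnWith (s := univ)).comp_eVariationOn_le (g := fun x : ℝ => x)
    (s := Icc (0 : ℝ) 1) (fun _ _ => mem_univ _)
  have h2 : eVariationOn (fun x : ℝ => x) (Icc (0 : ℝ) 1) ≤ 1 := by
    have := MonotoneOn.eVariationOn_le (f := fun x : ℝ => x) (s := Icc (0 : ℝ) 1) (a := 0)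
      (b := 1) (fun _ _ _ _ h => h) (by simp) (by simp)
    simpa using this
  refine h1.trans ?_
  calc ((Real.toNNReal c : ℝ≥0) : ℝ≥0∞) * eVariationOn (fun x : ℝ => x) (Icc (0 : ℝ) 1)
      ≤ ((Real.toNNReal c : ℝ≥0) : ℝ≥0∞) * 1 := by gcongr
    _ = ENNReal.ofReal c := by rw [mul_one]; rfl

/-- **The maximal normal path length constants are bounded uniformly in the dimension.** -/
theorem result : ∃ C : ℝ≥0, ∀ n : ℕ, w n ≤ C := by
  obtain ⟨C, hC⟩ := Pool.Agent.X194.NP.core_one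
  refine ⟨Real.toNNReal C, ?_⟩
  intro n
  unfold w
  refine iSup_le fun A => iSup_le fun B => iSup_le fun hA => iSup_le fun hB => iSup_le fun hAB => ?_
  have hne : A ≠ B := by
    rintro rfl
    rw [sub_self, norm_zero] at hAB
    exact zero_ne_one hAB
  haveI : Nontrivial (Matrix (Fin n) (Fin n) ℂ) := ⟨⟨A, B, hne⟩⟩
  obtain ⟨γ, h0, h1, hn, hl⟩ := hC (Matrix (Fin n) (Fin n) ℂ) (fun a => Matrix.finite_spectrum a)
    A B ((normal_iff A).1 hA) ((normal_iff B).1 hB) (by rw [norm_sub_rev, hAB])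
  have hcont : ContinuousOn γ (Icc 0 1) := by
    have hlw : LipschitzWith (Real.toNNReal C) γ := by
      apply LipschitzWith.of_dist_le_mul
      intro s t
      rw [dist_eq_norm, Real.dist_eq]
      exact (hl s t).trans (mul_le_mul_of_nonneg_right (Real.le_coe_toNNReal C) (abs_nonneg _))
    exact hlw.continuous.continuousOn
  refine (iInf₂_le γ ⟨hcont, h0, h1, fun t _ => (normal_iff _).2 (hn t)⟩).trans ?_
  exact evar_le γ hl

end Pool.Agent.Results.MP_6f0508_an.UniformBound
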