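import Pool.Agent.X204.NPG

/-!
# MP_6f0508_an: upper bounds for the maximal normal-path length constants `w_n`

`w_n ≤ C n` with an absolute constant `C`, and `w_n ≤ 101 n ^ (3 / 2)`, for all `n`.

Idea of the proof. Let `A = U diag(a) U*`, `B = V diag(b) V*` be normal, `‖A - B‖ = 1`, `T = U* V`.
There is a matrix `X` with `X k l = 0` unless `|a k - b l| ≤ R`, and `‖X - T‖ ≤ 1/6`, with an absolute
constant `R`: `X` is the Schur product of `T` with `ψ (Re (a k - b l) / R') ψ (Im (a k - b l) / R')`,
`ψ` smooth with compact support, and the Schur multiplier `1 - ψ (Re (a k - b l) / R')` is a bounded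
function of `Re A - Re B`, with norm `O (1 / R')`, by the Fourier representation of `ψ`. (For the
explicit bound `X` is `T` with the entries with `|a k - b l| > R = 6 √n` removed, and the Frobenius norm
is used.) The `2n` eigenvalues are divided into clusters, the connected components of the graph of the
pairs of points at distance at most `R`, of diameter at most `(2n-1) R`; each cluster is moved to a
point, which moves `A` and `B` linearly to normal matrices `A'` and `B'`. Now `X` gives an exact
intertwiner of `A'` and `B'`, and so does the unitary factor `W` of its polar decomposition, which is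
near the identity: `A' = W B' W*`. The Cayley path from `1` to `W` gives a path from `B'` to `A'` of
length `O (‖A' - B'‖)`.
-/

set_option autoImplicit false

open Set
open scoped Matrix.Norms.L2Operator ENNReal

namespace Pool.Agent.Results.MP_6f0508_an.UpperBound

/-- `γ` is a normal path from `A` to `B`: a continuous map from `[0, 1]` to the normal `n × n`
matrices with `γ 0 = A` and `γ 1 = B`. -/
def IsNormalPath {n : ℕ} (γ : ℝ → Matrix (Fin n) (Fin n) ℂ) (A B : Matrix (Fin n) (Fin n) ℂ) :
    Prop :=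
  ContinuousOn γ (Icc 0 1) ∧ γ 0 = A ∧ γ 1 = B ∧ ∀ t ∈ Icc (0 : ℝ) 1, IsStarNormal (γ t)

/-- `L (A, B)`, the infimum of the lengths of the normal paths from `A` to `B`; the length is the
variation of `γ` on `[0, 1]` for the operator norm. -/
noncomputable def L {n : ℕ} (A B : Matrix (Fin n) (Fin n) ℂ) : ℝ≥0∞ :=
  ⨅ (γ : ℝ → Matrix (Fin n) (Fin n) ℂ) (_ : IsNormalPath γ A B), eVariationOn γ (Icc 0 1)

/-- `w_n`, the supremum of `L (A, B)` over the normal `n × n` matrices with `‖A - B‖ = 1`. -/
noncomputable def w (n : ℕ) : ℝ≥0∞ :=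
  ⨆ (A : Matrix (Fin n) (Fin n) ℂ) (B : Matrix (Fin n) (Fin n) ℂ)
    (_ : IsStarNormal A ∧ IsStarNormal B ∧ ‖A - B‖ = 1), L A B

lemma L_le {n : ℕ} {A B : Matrix (Fin n) (Fin n) ℂ} {l : ℝ}
    (h : Pool.Agent.X204.NP.Join IsStarNormal A B l) : L A B ≤ ENNReal.ofReal l := by
  obtain ⟨γ, hc, h0, h1, hP, hl⟩ := h
  exact (iInf₂_le γ ⟨hc, h0, h1, hP⟩).trans hl

lemma pos_of_norm {n : ℕ} {A B : Matrix (Fin n) (Fin n) ℂ} (h : ‖A - B‖ = 1) : 1 ≤ n := by
  rcases Nat.eq_zero_or_pos n with h0 | h0
  · exfalso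
    subst h0
    rw [Subsingleton.elim (A - B) 0, norm_zero] at h
    exact zero_ne_one h
  · exact h0

/-- **Upper bounds for `w_n`.** There is an absolute constant `C` with `w_n ≤ C n` for all `n`, and
`w_n ≤ 101 n ^ (3 / 2)` for all `n`. -/
theorem result :
    (∃ C : ℝ, ∀ n : ℕ, w n ≤ ENNReal.ofReal (C * n)) ∧
    ∀ n : ℕ, w n ≤ ENNReal.ofReal (101 * (n : ℝ) ^ (3 / 2 : ℝ)) := by
  constructor
  · obtain ⟨C, hC⟩ := Pool.Agent.X204.NP.linear_bound
    refine ⟨C, fun n => ?_⟩
    refine iSup_le fun A => iSup_le fun B => iSup_le fun h => ?_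
    exact L_le (hC n (pos_of_norm h.2.2) A B h.1 h.2.1 h.2.2)
  · intro n
    refine iSup_le fun A => iSup_le fun B => iSup_le fun h => ?_
    have hn := pos_of_norm h.2.2
    have h1 := L_le (Pool.Agent.X204.NP.explicit hn A B h.1 h.2.1 h.2.2)
    have h2 : (n : ℝ) ^ (3 / 2 : ℝ) = (n : ℝ) * Real.sqrt n := by
      have hpos : (0 : ℝ) < n := by exact_mod_cast hn
      rw [show (3 / 2 : ℝ) = 1 + 1 / 2 by norm_num, Real.rpow_add hpos, Real.rpow_one,
        Real.sqrt_eq_rpow]
    rw [h2]
    exact h1

end Pool.Agent.Results.MP_6f0508_an.UpperBound
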